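import Pool.Agent.helper93.RG.Spec

/-! # Project rg (MP_ea7dc1_al), row RTS: counting roots of unity -/

set_option autoImplicit false

namespace Pool.Agent.RG

open Finset Polynomial

/-- the polynomial `∑ g j X^(j+M)` -/
noncomputable def RTS_P (M : ℕ) (g : ℤ →₀ ℤ) : ℂ[X] :=
  ∑ j ∈ g.support, C ((g j : ℤ) : ℂ) * X ^ (j + M).toNat

theorem RTS_ne (M : ℕ) (g : ℤ →₀ ℤ) (hg : g ≠ 0) (hM : ∀ j ∈ g.support, |j| ≤ (M : ℤ)) :
    RTS_P M g ≠ 0 := by
  obtain ⟨j0, hj0⟩ := Finsupp.support_nonempty_iff.mpr hg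
  intro h0
  have h1 : (RTS_P M g).coeff (j0 + M).toNat = ((g j0 : ℤ) : ℂ) := by
    unfold RTS_P
    rw [finsetSum_coeff]
    rw [Finset.sum_eq_single j0]
    · rw [coeff_C_mul, coeff_X_pow, if_pos rfl, mul_one]
    · intro j hj hne
      rw [coeff_C_mul, coeff_X_pow, if_neg, mul_zero]
      intro he
      have h2 := abs_le.mp (hM j hj)
      have h3 := abs_le.mp (hM j0 hj0)
      omega
    · intro h
      exact absurd hj0 h
  rw [h0, coeff_zero] at h1
  have h2 : g j0 = 0 := by exact_mod_cast h1.symm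
  exact (Finsupp.mem_support_iff.mp hj0) h2

theorem RTS_deg (M : ℕ) (g : ℤ →₀ ℤ) (hM : ∀ j ∈ g.support, |j| ≤ (M : ℤ)) :
    (RTS_P M g).natDegree ≤ 2 * M := by
  unfold RTS_P
  refine natDegree_sum_le_of_forall_le _ _ fun j hj => ?_
  refine (natDegree_C_mul_X_pow_le _ _).trans ?_
  have h2 := abs_le.mp (hM j hj)
  omega

theorem RTS_eval (M : ℕ) (g : ℤ →₀ ℤ) (hM : ∀ j ∈ g.support, |j| ≤ (M : ℤ)) (d : ℕ) (hd : 0 < d)
    (hsum : ∀ r : ℤ, ∑ j ∈ g.support with j ≡ r [ZMOD d], g j = 0) (ζ : ℂ) (hζ : ζ ^ d = 1) :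
    (RTS_P M g).eval ζ = 0 := by
  have h1 : (RTS_P M g).eval ζ = ∑ j ∈ g.support, ((g j : ℤ) : ℂ) * ζ ^ ((j + M).toNat % d) := by
    unfold RTS_P
    rw [eval_finsetSum]
    refine Finset.sum_congr rfl fun j _ => ?_
    rw [eval_mul, eval_C, eval_pow, eval_X, ← pow_eq_pow_mod _ hζ]
  rw [h1]
  rw [← Finset.sum_fiberwise_of_maps_to (s := g.support) (t := range d)
    (g := fun j : ℤ => (j + M).toNat % d) (fun j _ => Finset.mem_range.mpr (Nat.mod_lt _ hd))]
  refine Finset.sum_eq_zero fun r hr => ?_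
  have h2 : ∑ j ∈ g.support.filter (fun j : ℤ => (j + M).toNat % d = r),
      ((g j : ℤ) : ℂ) * ζ ^ ((j + M).toNat % d) =
      ((∑ j ∈ g.support.filter (fun j : ℤ => (j + M).toNat % d = r), g j : ℤ) : ℂ) * ζ ^ r := by
    rw [Int.cast_sum, Finset.sum_mul]
    refine Finset.sum_congr rfl fun j hj => ?_
    rw [(Finset.mem_filter.mp hj).2]
  rw [h2]
  have h3 : (g.support.filter fun j : ℤ => (j + M).toNat % d = r) =
      g.support.filter fun j : ℤ => j ≡ (r : ℤ) - M [ZMOD d] := by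
    refine Finset.filter_congr fun j hj => ?_
    have h4 := abs_le.mp (hM j hj)
    have h5 : (0 : ℤ) ≤ j + M := by omega
    have hr' := Finset.mem_range.mp hr
    constructor
    · intro h
      have h6 : (((j + M).toNat % d : ℕ) : ℤ) = r := by exact_mod_cast h
      rw [Int.natCast_mod, Int.toNat_of_nonneg h5] at h6
      rw [Int.modEq_iff_dvd]
      have h7 : (d : ℤ) ∣ (j + M) - r := by
        rw [← h6]
        exact Int.dvd_self_sub_emod
      have h8 : (r : ℤ) - M - j = -((j + M) - r) := by ring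
      rw [h8]
      exact (dvd_neg).mpr h7
    · intro h
      rw [Int.modEq_iff_dvd] at h
      have h7 : (j + M) ≡ (r : ℤ) [ZMOD d] := by
        rw [Int.modEq_iff_dvd]
        have h8 : (r : ℤ) - (j + M) = (r : ℤ) - M - j := by ring
        rw [h8]
        exact h
      have h9 : (j + M) % (d : ℤ) = r := by
        rw [h7]
        exact Int.emod_eq_of_lt (by positivity) (by exact_mod_cast hr')
      have h10 : (((j + M).toNat % d : ℕ) : ℤ) = r := by
        rw [Int.natCast_mod, Int.toNat_of_nonneg h5]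
        exact h9
      exact_mod_cast h10
  rw [h3, hsum]
  simp

/-- RTS. -/
theorem RTS : RTS_stmt := by
  classical
  intro M g 𝒟 hg hM h𝒟
  have hne := RTS_ne M g hg hM
  have hsub : 𝒟.biUnion (fun d => primitiveRoots d ℂ) ⊆ (RTS_P M g).roots.toFinset := by
    intro ζ hζ
    obtain ⟨d, hd, hζd⟩ := Finset.mem_biUnion.mp hζ
    have hd0 := (h𝒟 d hd).1
    rw [mem_primitiveRoots hd0] at hζd
    rw [Multiset.mem_toFinset, mem_roots hne]
    exact RTS_eval M g hM d hd0 (h𝒟 d hd).2 ζ hζd.pow_eq_one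
  have hcard := Finset.card_le_card hsub
  have hdisj : ∀ d ∈ 𝒟, ∀ d' ∈ 𝒟, d ≠ d' → Disjoint (primitiveRoots d ℂ) (primitiveRoots d' ℂ) :=
    fun d _ d' _ hne' => IsPrimitiveRoot.disjoint hne'
  rw [Finset.card_biUnion hdisj] at hcard
  have h1 : ∑ d ∈ 𝒟, (primitiveRoots d ℂ).card = ∑ d ∈ 𝒟, Nat.totient d :=
    Finset.sum_congr rfl fun d _ => Complex.card_primitiveRoots d
  rw [h1] at hcard
  calc ∑ d ∈ 𝒟, Nat.totient d ≤ (RTS_P M g).roots.toFinset.card := hcard
    _ ≤ Multiset.card (RTS_P M g).roots := Multiset.toFinset_card_le _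
    _ ≤ (RTS_P M g).natDegree := card_roots' _
    _ ≤ 2 * M := RTS_deg M g hM

end Pool.Agent.RG
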